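import Mathlib
import Pool.Agent.H798.BV.Stm6

set_option autoImplicit false

/-!
# MP_172a45_an: piece (S6)
-/

namespace Pool.Agent.H799.BV

open Pool.Agent.H798.BV

lemma norm_exp_sub_one_le (z : ℂ) : ‖Complex.exp z - 1‖ ≤ Real.exp ‖z‖ - 1 := by
  have h := Complex.norm_exp_sub_sum_le_exp_norm_sub_sum z 1
  simpa using h

lemma prod_two (ζ P : ℂ) (x : ℝ) (hP : ‖P - 1‖ ≤ Real.exp x - 1) :
    ‖Complex.exp ζ * P - 1‖ ≤ Real.exp (‖ζ‖ + x) - 1 := by
  have h1 := norm_exp_sub_one_le ζ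
  have e1 : Complex.exp ζ * P - 1 =
      (Complex.exp ζ - 1) * (P - 1) + (Complex.exp ζ - 1) + (P - 1) := by ring
  have h2 : ‖(Complex.exp ζ - 1) * (P - 1)‖ ≤ (Real.exp ‖ζ‖ - 1) * (Real.exp x - 1) := by
    rw [norm_mul]
    exact mul_le_mul h1 hP (norm_nonneg _) ((norm_nonneg _).trans h1)
  rw [e1, Real.exp_add]
  calc ‖(Complex.exp ζ - 1) * (P - 1) + (Complex.exp ζ - 1) + (P - 1)‖
      ≤ ‖(Complex.exp ζ - 1) * (P - 1)‖ + ‖Complex.exp ζ - 1‖ + ‖P - 1‖ := norm_add₃_le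
    _ ≤ (Real.exp ‖ζ‖ - 1) * (Real.exp x - 1) + (Real.exp ‖ζ‖ - 1) + (Real.exp x - 1) := by
        gcongr
    _ = Real.exp ‖ζ‖ * Real.exp x - 1 := by ring

lemma exp_sub_one_le_mul (t : ℝ) : Real.exp t - 1 ≤ t * Real.exp t := by
  have h1 : 1 - t ≤ Real.exp (-t) := Real.one_sub_le_exp_neg t
  have h2 : (1 - t) * Real.exp t ≤ Real.exp (-t) * Real.exp t :=
    mul_le_mul_of_nonneg_right h1 (Real.exp_pos t).le
  rw [← Real.exp_add, neg_add_cancel, Real.exp_zero] at h2
  linarith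

/-- the polynomial bound -/
lemma poly_exp (y α β γ : ℝ) (hy : 0 ≤ y) (hα : 0 ≤ α) (hβ : 0 ≤ β) (hγ : 0 ≤ γ) :
    (α * y + β * y ^ 2 + γ * y ^ 3) * Real.exp (-(2 * y)) ≤
      (α + 2 * β + 6 * γ) * Real.exp (-y) := by
  have h1 : y ≤ Real.exp y := by
    have := Real.pow_div_factorial_le_exp y hy 1
    simpa using this
  have h2 : y ^ 2 ≤ 2 * Real.exp y := by
    have := Real.pow_div_factorial_le_exp y hy 2
    simp only [Nat.factorial_two, Nat.cast_ofNat] at this
    linarith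
  have h3 : y ^ 3 ≤ 6 * Real.exp y := by
    have := Real.pow_div_factorial_le_exp y hy 3
    have e : ((Nat.factorial 3 : ℕ) : ℝ) = 6 := by norm_num [Nat.factorial]
    rw [e] at this
    linarith
  have h4 : α * y + β * y ^ 2 + γ * y ^ 3 ≤ (α + 2 * β + 6 * γ) * Real.exp y := by
    have a1 := mul_le_mul_of_nonneg_left h1 hα
    have a2 := mul_le_mul_of_nonneg_left h2 hβ
    have a3 := mul_le_mul_of_nonneg_left h3 hγ
    linarith
  calc (α * y + β * y ^ 2 + γ * y ^ 3) * Real.exp (-(2 * y))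
      ≤ ((α + 2 * β + 6 * γ) * Real.exp y) * Real.exp (-(2 * y)) :=
        mul_le_mul_of_nonneg_right h4 (Real.exp_pos _).le
    _ = (α + 2 * β + 6 * γ) * Real.exp (-y) := by
        rw [mul_assoc, ← Real.exp_add]
        congr 2
        ring

/-- The pointwise comparison. -/
lemma pointwise (h2 : S_TR) (m : ℕ) (l : Fin m → ℂ) (a C : ℝ) (hm : 1 ≤ m) (hC : 1 ≤ C)
    (ha0 : 0 < a) (ha : a ≤ 1 / (10 ^ 8 * C ^ 2)) (hmean : ∑ k, ‖l k‖ ≤ m)
    (hβ : bB 4 l ≤ 2 * C * a ^ 2) (hY : ‖yR 4 l‖ ≤ 1 / 320) (hs : a / 160 ≤ (sR 4 l).re)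
    (u : ℝ) (hu0 : 0 ≤ u) (hua : u ≤ a) :
    ‖∏ k, (1 - (u : ℂ) * l k) - Complex.exp (-((m : ℂ) * sR 4 l) * (u : ℂ))‖ ≤
      (2560 * C * a + 5120 / (m * a ^ 2) + 48 * 1280 ^ 3 / (m ^ 2 * a ^ 3)) *
        Real.exp (-(m * a / 1280 * u)) := by
  have hm0 : (0 : ℝ) < m := by exact_mod_cast hm
  have hmC : (m : ℂ) ≠ 0 := by exact_mod_cast hm0.ne'
  have hC0 : 0 < C := by linarith
  have ha' : a * C ^ 2 * 10 ^ 8 ≤ 1 := by
    rw [le_div_iff₀ (by positivity)] at ha
    linarith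
  have haC : a * C * 10 ^ 8 ≤ 1 := by
    have : a * C ≤ a * C ^ 2 := by nlinarith [mul_pos ha0 hC0]
    linarith
  have ha1 : a * 10 ^ 8 ≤ 1 := by
    have : a ≤ a * C := by nlinarith
    linarith
  set A := Finset.univ.filter (fun k => ¬ 4 < ‖l k‖) with hA
  set B := Finset.univ.filter (fun k => 4 < ‖l k‖) with hB
  have hsA : (∑ k ∈ A, l k) = m * sR 4 l := by
    rw [sR, ← hA]; field_simp
  have hyA : (∑ k ∈ A, l k ^ 2) = m * yR 4 l := by
    rw [yR, ← hA]; field_simp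
  have hbB : (∑ k ∈ B, ‖l k‖) = m * bB 4 l := by
    rw [bB, ← hB]; field_simp
  have hun : ‖(u : ℂ)‖ = u := by rw [Complex.norm_real, Real.norm_of_nonneg hu0]
  obtain ⟨E, hE, hprod⟩ := h2 m l A 4 (u : ℂ) (by norm_num)
    (fun k hk => by
      rw [hA, Finset.mem_filter] at hk
      exact not_lt.1 hk.2)
    ((Finset.sum_le_sum_of_subset_of_nonneg (Finset.subset_univ _)
      (fun _ _ _ => norm_nonneg _)).trans hmean)
    (by rw [hun]; linarith)
  rw [hun] at hE
  set ζ : ℂ := -((u : ℂ) ^ 2 * (m * yR 4 l)) / 2 + E with hζ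
  set P : ℂ := ∏ k ∈ B, (1 - (u : ℂ) * l k) with hP
  have hP1 : ‖P - 1‖ ≤ Real.exp (u * m * bB 4 l) - 1 := by
    have h := Finset.norm_prod_one_add_sub_one_le B (fun k => -((u : ℂ) * l k))
    have e1 : ∏ k ∈ B, (1 + -((u : ℂ) * l k)) = P := by
      rw [hP]
      refine Finset.prod_congr rfl fun k _ => ?_
      ring
    have e2 : ∑ k ∈ B, ‖-((u : ℂ) * l k)‖ = u * m * bB 4 l := by
      rw [mul_assoc, ← hbB, Finset.mul_sum]
      refine Finset.sum_congr rfl fun k _ => ?_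
      rw [norm_neg, norm_mul, hun]
    rw [e1, e2] at h
    exact h
  have hall : ∏ k, (1 - (u : ℂ) * l k) =
      Complex.exp (-((m : ℂ) * sR 4 l) * (u : ℂ)) * (Complex.exp ζ * P) := by
    rw [← Finset.prod_filter_mul_prod_filter_not Finset.univ (fun k => 4 < ‖l k‖), ← hA, ← hB,
      ← hP, hprod, hsA, hyA, ← mul_assoc (Complex.exp _) (Complex.exp ζ), ← Complex.exp_add,
      mul_comm P]
    congr 2
    rw [hζ]
    ring
  -- sizes
  have hζn : ‖ζ‖ ≤ m * u ^ 2 / 640 + 8 * m * u ^ 3 := by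
    have e1 : ‖-((u : ℂ) ^ 2 * (m * yR 4 l)) / 2‖ = u ^ 2 * (m * ‖yR 4 l‖) / 2 := by
      rw [norm_div, norm_neg, norm_mul, norm_mul, norm_pow, hun]
      simp
    have h3 : ‖ζ‖ ≤ u ^ 2 * (m * ‖yR 4 l‖) / 2 + ‖E‖ := by
      rw [hζ, ← e1]
      exact norm_add_le _ _
    have h4 : u ^ 2 * (m * ‖yR 4 l‖) ≤ u ^ 2 * (m * (1 / 320)) := by gcongr
    nlinarith
  have hx : u * m * bB 4 l ≤ 2 * C * a ^ 2 * (m * u) := by
    have := mul_le_mul_of_nonneg_left hβ (mul_nonneg hu0 hm0.le)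
    nlinarith
  have hT : ‖ζ‖ + u * m * bB 4 l ≤
      m * u ^ 2 / 640 + 8 * m * u ^ 3 + 2 * C * a ^ 2 * (m * u) := by linarith
  set T' : ℝ := m * u ^ 2 / 640 + 8 * m * u ^ 3 + 2 * C * a ^ 2 * (m * u) with hT'
  clear_value T'
  have hmu : 0 ≤ (m : ℝ) * u := mul_nonneg hm0.le hu0
  have hT'0 : 0 ≤ T' := by rw [hT']; positivity
  have hT'1 : T' ≤ 3 / 4 * (m * u * (a / 160)) := by
    have e : T' = (m * u) * (u / 640 + 8 * u ^ 2 + 2 * C * a ^ 2) := by rw [hT']; ring
    rw [e]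
    have h5 : u / 640 + 8 * u ^ 2 + 2 * C * a ^ 2 ≤ 3 / 4 * (a / 160) := by
      have h6 : u ^ 2 ≤ a * a := by nlinarith
      have h7 : 8 * (a * a) ≤ 8 * (a * (1 / 10 ^ 8)) := by
        have : a ≤ 1 / 10 ^ 8 := by rw [le_div_iff₀ (by positivity)]; exact ha1
        gcongr
      have h8 : 2 * C * a ^ 2 ≤ 2 * (a * (1 / 10 ^ 8)) := by
        have : a * C ≤ 1 / 10 ^ 8 := by rw [le_div_iff₀ (by positivity)]; exact haC
        have h9 : a * (a * C) ≤ a * (1 / 10 ^ 8) := by gcongr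
        nlinarith
      nlinarith
    calc (m * u) * (u / 640 + 8 * u ^ 2 + 2 * C * a ^ 2)
        ≤ (m * u) * (3 / 4 * (a / 160)) := mul_le_mul_of_nonneg_left h5 hmu
      _ = 3 / 4 * (m * u * (a / 160)) := by ring
  have hexp : ‖Complex.exp (-((m : ℂ) * sR 4 l) * (u : ℂ))‖ ≤ Real.exp (-(m * u * (a / 160))) := by
    rw [Complex.norm_exp]
    refine Real.exp_le_exp.2 ?_
    have e : (-((m : ℂ) * sR 4 l) * (u : ℂ)).re = -(m * u * (sR 4 l).re) := by
      have : (-((m : ℂ) * sR 4 l) * (u : ℂ)) = ((-(m * u) : ℝ) : ℂ) * sR 4 l := by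
        push_cast; ring
      rw [this, Complex.re_ofReal_mul]
      ring
    rw [e]
    have := mul_le_mul_of_nonneg_left hs hmu
    linarith
  have hdiff : ∏ k, (1 - (u : ℂ) * l k) - Complex.exp (-((m : ℂ) * sR 4 l) * (u : ℂ)) =
      Complex.exp (-((m : ℂ) * sR 4 l) * (u : ℂ)) * (Complex.exp ζ * P - 1) := by
    rw [hall]; ring
  have hmain : ‖Complex.exp ζ * P - 1‖ ≤ T' * Real.exp T' := by
    refine (prod_two ζ P _ hP1).trans ?_
    have h10 : Real.exp (‖ζ‖ + u * m * bB 4 l) ≤ Real.exp T' := Real.exp_le_exp.2 hT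
    have h11 := exp_sub_one_le_mul T'
    linarith
  rw [hdiff, norm_mul]
  have step : ‖Complex.exp (-((m : ℂ) * sR 4 l) * (u : ℂ))‖ * ‖Complex.exp ζ * P - 1‖ ≤
      Real.exp (-(m * u * (a / 160))) * (T' * Real.exp T') :=
    mul_le_mul hexp hmain (norm_nonneg _) (Real.exp_pos _).le
  refine step.trans ?_
  set y : ℝ := m * a / 1280 * u with hy
  clear_value y
  have hy0 : 0 ≤ y := by rw [hy]; positivity
  have h12 : Real.exp (-(m * u * (a / 160))) * (T' * Real.exp T') ≤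
      T' * Real.exp (-(2 * y)) := by
    have e : Real.exp (-(m * u * (a / 160))) * (T' * Real.exp T') =
        T' * Real.exp (-(m * u * (a / 160)) + T') := by
      rw [Real.exp_add]; ring
    rw [e]
    refine mul_le_mul_of_nonneg_left (Real.exp_le_exp.2 ?_) hT'0
    rw [hy]
    linarith
  refine h12.trans ?_
  have e3 : T' = (2560 * C * a) * y + (2560 / (m * a ^ 2)) * y ^ 2 +
      (8 * 1280 ^ 3 / (m ^ 2 * a ^ 3)) * y ^ 3 := by
    have g1 : (2560 * C * a) * y = 2 * C * a ^ 2 * (m * u) := by rw [hy]; ring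
    have g2 : (2560 / (m * a ^ 2)) * y ^ 2 = m * u ^ 2 / 640 := by
      rw [hy, div_mul_eq_mul_div, div_eq_iff (by positivity)]; ring
    have g3 : (8 * 1280 ^ 3 / (m ^ 2 * a ^ 3)) * y ^ 3 = 8 * m * u ^ 3 := by
      rw [hy, div_mul_eq_mul_div, div_eq_iff (by positivity)]; ring
    rw [g1, g2, g3, hT']
    ring
  rw [e3]
  refine (poly_exp y _ _ _ hy0 (by positivity) (by positivity) (by positivity)).trans ?_
  refine le_of_eq ?_
  congr 1
  ring

theorem t_S6 (h1 : S_SB) (h2 : S_TR) : S_S6 := by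
  intro C hC
  have hC0 : 0 < C := by linarith
  refine ⟨1 / (10 ^ 8 * C ^ 2), 52428800 * C, by positivity, by linarith, ?_⟩
  intro m l a hm hS ha hM hs hY hJ
  have ha0 := hS.pos
  have hm0 : (0 : ℝ) < m := by exact_mod_cast hm
  obtain ⟨hb1, -, hb3⟩ := h1 m l a hm hS
  have hsre := hb3 hY
  have hsn : (sR 4 l).re ≤ ‖sR 4 l‖ := Complex.re_le_norm _
  have hβ : bB 4 l ≤ 2 * C * a ^ 2 := by
    have h3 : (sR 4 l).re ≤ C * a := hsn.trans hs
    have h4 : 4 / 3 * a * (sR 4 l).re ≤ 4 / 3 * a * (C * a) :=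
      mul_le_mul_of_nonneg_left h3 (by positivity)
    have h5 : 0 ≤ C * a ^ 2 := by positivity
    nlinarith
  set Q : ℝ := 2560 * C * a + 5120 / (m * a ^ 2) + 48 * 1280 ^ 3 / (m ^ 2 * a ^ 3) with hQ
  have hQ0 : 0 ≤ Q := by rw [hQ]; positivity
  set c : ℂ := -((m : ℂ) * sR 4 l) with hc
  have hs0 : 0 < (sR 4 l).re := lt_of_lt_of_le (by positivity) hsre
  have hsne : sR 4 l ≠ 0 := by
    intro h
    rw [h] at hs0
    simp at hs0
  have hmC : (m : ℂ) ≠ 0 := by exact_mod_cast hm0.ne'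
  have hcne : c ≠ 0 := by
    rw [hc]
    exact neg_ne_zero.2 (mul_ne_zero hmC hsne)
  set I : ℂ := ∫ u in (0:ℝ)..a, ∏ k, (1 - (u : ℂ) * l k) with hI
  have hcont1 : Continuous fun u : ℝ => ∏ k, (1 - (u : ℂ) * l k) := by
    refine continuous_finsetProd _ fun k _ => ?_
    exact continuous_const.sub (Complex.continuous_ofReal.mul continuous_const)
  have hcont2 : Continuous fun u : ℝ => Complex.exp (c * (u : ℂ)) :=
    Complex.continuous_exp.comp (continuous_const.mul Complex.continuous_ofReal)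
  have hmod : ∫ u in (0:ℝ)..a, Complex.exp (c * (u : ℂ)) = (Complex.exp (c * (a : ℂ)) - 1) / c := by
    rw [integral_exp_mul_complex hcne]
    simp
  have hlam : (0 : ℝ) < m * a / 1280 := by positivity
  have hgint : ∫ u in (0:ℝ)..a, Q * Real.exp (-(m * a / 1280 * u)) ≤ Q * (1280 / (m * a)) := by
    have hder : ∀ u ∈ Set.uIcc (0:ℝ) a, HasDerivAt
        (fun u : ℝ => -(1280 / (m * a)) * Real.exp (-(m * a / 1280 * u)))
        (Real.exp (-(m * a / 1280 * u))) u := by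
      intro u _
      have h3 : HasDerivAt (fun u : ℝ => -(m * a / 1280 * u)) (-(m * a / 1280)) u := by
        simpa only [neg_mul, mul_one] using (hasDerivAt_id' u).const_mul (-(m * a / 1280))
      have h4 := (h3.exp).const_mul (-(1280 / (m * a)))
      have hma : (m : ℝ) * a ≠ 0 := by positivity
      have e : -(1280 / (m * a)) * (Real.exp (-(m * a / 1280 * u)) * -(m * a / 1280)) =
          Real.exp (-(m * a / 1280 * u)) := by
        field_simp
      rw [e] at h4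
      exact h4
    have h5 := intervalIntegral.integral_eq_sub_of_hasDerivAt hder
      (Continuous.intervalIntegrable (by fun_prop) _ _)
    rw [intervalIntegral.integral_const_mul, h5]
    refine mul_le_mul_of_nonneg_left ?_ hQ0
    have h6 : 0 < 1280 / (m * a) := by positivity
    have h7 := Real.exp_pos (-(m * a / 1280 * a))
    simp only [mul_zero, neg_zero, Real.exp_zero, mul_one]
    nlinarith [mul_pos h6 h7]
  have hd : ‖I - (Complex.exp (c * (a : ℂ)) - 1) / c‖ ≤ Q * (1280 / (m * a)) := by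
    rw [← hmod, hI, ← intervalIntegral.integral_sub (hcont1.intervalIntegrable _ _)
      (hcont2.intervalIntegrable _ _)]
    refine (intervalIntegral.norm_integral_le_of_norm_le ha0.le ?_
      (Continuous.intervalIntegrable (by fun_prop) _ _)).trans hgint
    refine Filter.Eventually.of_forall fun u hu => ?_
    exact pointwise h2 m l a C hm hC ha0 ha hS.mean hβ hY hsre u hu.1.le hu.2
  -- the model
  have hmodn : 1 / 2 / (m * (C * a)) ≤ ‖(Complex.exp (c * (a : ℂ)) - 1) / c‖ := by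
    rw [norm_div]
    have hcn : ‖c‖ ≤ m * (C * a) := by
      rw [hc, norm_neg, norm_mul]
      simp only [Complex.norm_natCast]
      exact mul_le_mul_of_nonneg_left hs hm0.le
    have hcpos : 0 < ‖c‖ := norm_pos_iff.2 hcne
    have hnum : 1 / 2 ≤ ‖Complex.exp (c * (a : ℂ)) - 1‖ := by
      have h3 : ‖Complex.exp (c * (a : ℂ))‖ ≤ 1 / 2 := by
        rw [Complex.norm_exp]
        have e : (c * (a : ℂ)).re = -(m * a * (sR 4 l).re) := by
          have : c * (a : ℂ) = ((-(m * a) : ℝ) : ℂ) * sR 4 l := by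
            rw [hc]; push_cast; ring
          rw [this, Complex.re_ofReal_mul]
          ring
        rw [e]
        have h4 : 1 ≤ m * a * (sR 4 l).re := by
          have h5 : m * a * (a / 160) ≤ m * a * (sR 4 l).re :=
            mul_le_mul_of_nonneg_left hsre (by positivity)
          have h6 : m * a * (a / 160) = (m * a ^ 2) / 160 := by ring
          rw [h6] at h5
          linarith
        have h7 : Real.exp (-(m * a * (sR 4 l).re)) ≤ Real.exp (-1) :=
          Real.exp_le_exp.2 (by linarith)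
        refine h7.trans ?_
        rw [Real.exp_neg, one_div]
        refine inv_anti₀ (by norm_num) ?_
        have := Real.exp_one_gt_d9
        linarith
      have h8 := norm_sub_norm_le (1 : ℂ) (Complex.exp (c * (a : ℂ)))
      rw [norm_one, norm_sub_rev] at h8
      linarith
    rw [div_le_div_iff₀ (by positivity) hcpos]
    have h9 : 1 / 2 * ‖c‖ ≤ 1 / 2 * (m * (C * a)) := by linarith
    have h10 : 1 / 2 * (m * (C * a)) ≤ ‖Complex.exp (c * (a : ℂ)) - 1‖ * (m * (C * a)) :=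
      mul_le_mul_of_nonneg_right hnum (by positivity)
    linarith
  have hIn : 1 / 2 / (m * (C * a)) - Q * (1280 / (m * a)) ≤ ‖I‖ := by
    have h3 := norm_sub_norm_le ((Complex.exp (c * (a : ℂ)) - 1) / c) I
    rw [norm_sub_rev] at h3
    linarith
  have hmI : m * ‖I‖ ≤ a := by
    rw [norm_mul] at hJ
    have h3 : ‖(m : ℂ) + 1‖ = m + 1 := by
      have : (m : ℂ) + 1 = ((m + 1 : ℝ) : ℂ) := by push_cast; rfl
      rw [this, Complex.norm_real, Real.norm_of_nonneg (by positivity)]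
    rw [h3] at hJ
    have := norm_nonneg I
    nlinarith
  -- final numbers, `t = m a²`
  set t : ℝ := m * a ^ 2 with ht
  have ht0 : 0 < t := by rw [ht]; positivity
  have h4 : m * (1 / 2 / (m * (C * a)) - Q * (1280 / (m * a))) ≤ a :=
    (mul_le_mul_of_nonneg_left hIn hm0.le).trans hmI
  have h5 : a * (m * (1 / 2 / (m * (C * a)) - Q * (1280 / (m * a)))) =
      1 / (2 * C) - (3276800 * C * a + 6553600 / t + 1280 * 48 * 1280 ^ 3 * a / t ^ 2) := by
    rw [hQ, ht]
    field_simp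
    ring
  have h6 : a * (m * (1 / 2 / (m * (C * a)) - Q * (1280 / (m * a)))) ≤ a * a :=
    mul_le_mul_of_nonneg_left h4 ha0.le
  rw [h5] at h6
  have ha' : a * C ^ 2 * 10 ^ 8 ≤ 1 := by
    rw [le_div_iff₀ (by positivity)] at ha
    linarith
  -- everything in units of `1 / C`
  set i : ℝ := 1 / C with hi
  have hi0 : 0 < i := by rw [hi]; positivity
  have hi1 : i ≤ 1 := by rw [hi, div_le_one hC0]; exact hC
  have hCi : C * i = 1 := by rw [hi]; field_simp
  have haC : C * a ≤ i / 10 ^ 8 := by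
    have h7 : C * a = (a * C ^ 2) * i := by
      have : a * C ^ 2 * i = a * C * (C * i) := by ring
      rw [this, hCi]; ring
    rw [h7]
    have h8 : a * C ^ 2 ≤ 1 / 10 ^ 8 := by rw [le_div_iff₀ (by positivity)]; exact ha'
    calc (a * C ^ 2) * i ≤ (1 / 10 ^ 8) * i := mul_le_mul_of_nonneg_right h8 hi0.le
      _ = i / 10 ^ 8 := by ring
  have haa : a ≤ i / 10 ^ 8 := by
    have : a ≤ C * a := by nlinarith
    linarith
  have ha2 : a * a ≤ i / 10 ^ 8 := by
    have : a ≤ 1 := by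
      have : i / 10 ^ 8 ≤ 1 := by
        rw [div_le_one (by positivity)]
        have : (1 : ℝ) ≤ 10 ^ 8 := by norm_num
        linarith
      linarith
    calc a * a ≤ 1 * a := mul_le_mul_of_nonneg_right this ha0.le
      _ = a := one_mul a
      _ ≤ i / 10 ^ 8 := haa
  have ht1 : 6553600 / t ≤ i / 8 := by
    have h7 : 6553600 / t ≤ 6553600 / (52428800 * C) := by
      gcongr
    have h8 : 6553600 / (52428800 * C) = i / 8 := by
      rw [hi]; field_simp; norm_num
    linarith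
  have ht2 : 1280 * 48 * 1280 ^ 3 * a / t ^ 2 ≤ a := by
    rw [div_le_iff₀ (by positivity)]
    have h7 : (52428800 : ℝ) ≤ t := by
      have : (52428800 : ℝ) ≤ 52428800 * C := by linarith
      linarith
    have h8 : (1280 * 48 * 1280 ^ 3 : ℝ) ≤ t ^ 2 := by
      have h9 : (52428800 : ℝ) ^ 2 ≤ t ^ 2 := by gcongr
      have h10 : (1280 * 48 * 1280 ^ 3 : ℝ) ≤ 52428800 ^ 2 := by norm_num
      linarith
    have h11 := mul_le_mul_of_nonneg_right h8 ha0.le
    linarith
  have h12 : 1 / (2 * C) = i / 2 := by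
    rw [hi]; field_simp
  rw [h12] at h6
  have h13 : 3276800 * C * a = 3276800 * (C * a) := by ring
  rw [h13] at h6
  have h14 : 3276800 * (C * a) ≤ 3276800 * (i / 10 ^ 8) := by gcongr
  have e8 : (10 : ℝ) ^ 8 = 100000000 := by norm_num
  rw [e8] at h14 haa ha2
  linarith

end Pool.Agent.H799.BV
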